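import Pool.Agent.W_MP_3ab0ed_burn.ConeAct
import Pool.Agent.W_MP_3ab0ed_burn.Cone2

/-!
MP_3ab0ed_al, piece P4: facts on the cone-off needed for the inheritance of the axioms (L5 of
row 77).
-/

namespace Burn

namespace Cone

variable {X V : Type*} {Y : V → Set X} {R : ℕ} {d : X → X → ℕ}

/-- two vertices in different horoballs are at distance at least the sum of their levels -/
theorem kC_add_le (hd : IsGeod d) (hne : ∀ C, (Y C).Nonempty) {C C' : V} (h : C ≠ C')
    {u v : Cone Y R} (hu : 0 < kC C u) (hv : 0 < kC C' v) :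
    kC C u + kC C' v ≤ rho d u v := by
  have hf : ∀ u v : Cone Y R, Sx d u v →
      kC C' v + (R + 1 - kC C v) ≤ kC C' u + (R + 1 - kC C u) + 1 := by
    intro u v huv
    have key : ∀ u v : Cone Y R, St d u v →
        (kC C u = kC C v ∧ kC C' u ≤ kC C' v ∧ kC C' v ≤ kC C' u + 1) ∨
        (kC C' u = kC C' v ∧ kC C u ≤ kC C v ∧ kC C v ≤ kC C u + 1) := by
      intro u v huv
      cases huv with
      | base h => left; simp [kC]
      | hor hy hy' k hk h =>
        left
        simp only [kC]
        exact ⟨trivial, le_rfl, Nat.le_succ _⟩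
      | @up D y hy k hk =>
        by_cases hD : D = C
        · right
          subst hD
          rw [kC_col_ne h, kC_col_ne h, kC_col_self, kC_col_self]
          omega
        · left
          rw [kC_col_ne hD, kC_col_ne hD, kC_col, kC_col]
          split_ifs <;> omega
    have hle := kC_le C u
    have hle' := kC_le C v
    rcases huv with h1 | h1
    · rcases key _ _ h1 with h2 | h2 <;> omega
    · rcases key _ _ h1 with h2 | h2 <;> omega
  have h1 := lip_rdist (connected hd hne) (fun u : Cone Y R => kC C' u + (R + 1 - kC C u)) hf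
    u v
  have e1 : kC C' u = 0 := by
    by_contra hc
    exact h (kC_unique hu (Nat.pos_of_ne_zero hc))
  have e2 : kC C v = 0 := by
    by_contra hc
    exact h (kC_unique (Nat.pos_of_ne_zero hc) hv)
  have hle := kC_le C u
  simp only [e1, e2] at h1
  change kC C u + kC C' v ≤ rdist (Sx d) u v
  omega

/-- a vertex of positive level is in a horoball -/
theorem exists_kC_eq_lev {u : Cone Y R} (h : 0 < lev u) : ∃ C, kC C u = lev u := by
  cases u with
  | pt x => simp [lev] at h
  | hor C y hy k hk => exact ⟨C, by simp [kC, lev]⟩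
  | apex C => exact ⟨C, by simp [kC, lev]⟩

theorem lev_le_of_ne_apex {u : Cone Y R} (h : ∀ C, u ≠ apex C) : lev u ≤ R := by
  cases u with
  | pt x => simp [lev]
  | hor C y hy k hk => simp only [lev]; omega
  | apex C => exact absurd rfl (h C)

/-- a vertex which is not an apex is at distance `lev` from its base point -/
theorem rho_base_le (y0 : V → X) {u : Cone Y R} (h : ∀ C, u ≠ apex C) :
    rho d (pt (base y0 u)) u ≤ lev u := by
  cases u with
  | pt x => exact (rdist_le (n := 0) rfl)
  | hor C y hy k hk =>
    have := rho_col_le (R := R) (d := d) C y hy (Nat.zero_le (k + 1))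
    rw [col_zero, col_succ C y hy hk] at this
    simpa [base, lev] using this
  | apex C => exact absurd rfl (h C)

section act

variable {G : Type*} [Group G] [MulAction G X] [MulAction G V]
  {hY : ∀ (g : G) (C : V) (y : X), y ∈ Y C → g • y ∈ Y (g • C)}

theorem lev_gact (g : G) (u : Cone Y R) : lev (gact hY g u) = lev u := by
  cases u <;> rfl

theorem kC_gact (g : G) (C : V) (u : Cone Y R) : kC (g • C) (gact hY g u) = kC C u := by
  classical
  cases u with
  | pt x => rfl
  | hor D y hy k hk =>
    simp only [gact, kC]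
    have : (g • D = g • C) ↔ (D = C) := by
      constructor
      · intro h; exact MulAction.injective g h
      · intro h; rw [h]
    by_cases h : D = C
    · rw [if_pos h, if_pos (this.2 h)]
    · rw [if_neg h, if_neg (fun h1 => h (this.1 h1))]
  | apex D =>
    simp only [gact, kC]
    have : (g • D = g • C) ↔ (D = C) := by
      constructor
      · intro h; exact MulAction.injective g h
      · intro h; rw [h]
    by_cases h : D = C
    · rw [if_pos h, if_pos (this.2 h)]
    · rw [if_neg h, if_neg (fun h1 => h (this.1 h1))]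

theorem base_gact (y0 : V → X) (g : G) {u : Cone Y R} (h : ∀ C, u ≠ apex C) :
    base y0 (gact hY g u) = g • base y0 u := by
  cases u with
  | pt x => rfl
  | hor C y hy k hk => rfl
  | apex C => exact absurd rfl (h C)

theorem gact_ne_apex (g : G) {u : Cone Y R} (h : ∀ C, u ≠ apex C) :
    ∀ C, gact hY g u ≠ apex C := by
  cases u with
  | pt x => intro C; simp [gact]
  | hor C y hy k hk => intro C'; simp [gact]
  | apex C => exact absurd rfl (h C)

/-- if the level of `z` is large compared with its displacement, its horoball is invariant -/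
theorem fix_of_lev (hd : IsGeod d) (hne : ∀ C, (Y C).Nonempty) {g : G}
    {z : Cone Y R} {C : V} (hC : 0 < kC C z) (hb : rho d z (gact hY g z) < 2 * kC C z) :
    g • C = C := by
  by_contra h
  have h1 : 0 < kC (g • C) (gact hY g z) := by rw [kC_gact]; exact hC
  have h2 := kC_add_le hd hne (Ne.symm h) hC h1
  rw [kC_gact] at h2
  omega

/-- displacement of the base point -/
theorem base_disp (hd : IsGeod d) (hne : ∀ C, (Y C).Nonempty) (y0 : V → X) {g : G}
    {z : Cone Y R} (hz : ∀ C, z ≠ apex C) {l b m : ℕ} (hl : lev z ≤ l)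
    (hb : rho d z (gact hY g z) ≤ b) (hm : m ≤ R) (h : 2 * l + b ≤ 2 * m + 1) :
    d (base y0 z) (g • base y0 z) ≤ b * 2 ^ m := by
  have h1 := base_le (R := R) (d := d) hd hne y0 hm (u := z) (v := gact hY g z) (by
    rw [lev_gact]; omega)
  rw [base_gact y0 g hz] at h1
  exact h1.trans (Nat.mul_le_mul_right _ hb)

/-- L5 -/
theorem local_disp (hd : IsGeod d) (hne : ∀ C, (Y C).Nonempty) (y0 : V → X) {g : G}
    {z : Cone Y R} (hz : ∀ C, z ≠ apex C) {b : ℕ} (hb : rho d z (gact hY g z) ≤ b)
    (hbR : b ≤ R) :
    (∃ C, 0 < kC C z ∧ g • C = C) ∨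
      (2 * lev z ≤ b ∧ d (base y0 z) (g • base y0 z) ≤ b * 2 ^ b) := by
  by_cases hl : 2 * lev z ≤ b
  · right
    exact ⟨hl, base_disp hd hne y0 hz le_rfl hb hbR (by omega)⟩
  · left
    obtain ⟨C, hC⟩ := exists_kC_eq_lev (u := z) (by omega)
    have hC0 : 0 < kC C z := by omega
    have hC1 : rho d z (gact hY g z) < 2 * kC C z := by omega
    exact ⟨C, hC0, fix_of_lev hd hne hC0 hC1⟩

end act

end Cone

end Burn
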