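import Pool.Agent.W_MP_3ab0ed_burn.Family
import Pool.Agent.W_MP_3ab0ed_burn.P3Step
import Pool.Agent.W_MP_3ab0ed_h72.ConeFacts

/-!
MP_3ab0ed_al, piece P4 (row 77): the facts A1, A2, A4 of `StepHyp` for the rotation family of
the cone-off.
-/

set_option linter.style.haveILetI false
set_option linter.unusedVariables false

namespace Burn

namespace Up

variable {n δ B q : ℕ} {G V : Type} [Group G] [MulAction G V] {M : IMet V}

/-- displacements of the base point in the unscaled metric -/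
theorem base_disp' (H : Up n δ B q G V M) {N R : ℕ} (hN : 40 * δ + 3 + B + 20000 * δ ≤ N)
    (y0 : Ap n δ B q G M → V) (g : G) (z : Cone (Yx n δ B q M (G := G)) R)
    (hz : ∀ C, z ≠ Cone.apex C) {l b m : ℕ} (hl : Cone.lev z ≤ l) (hm : m ≤ R)
    (h : 2 * l + b ≤ 2 * m + 1) :
    letI := apAct (n := n) (δ := δ) (B := B) (q := q) H.inv
    letI := Cone.coneAct (R := R) (Yx_smul (n := n) (δ := δ) (B := B) (q := q) H.inv)
    Cone.rho (resc M.nd N) z (g • z) ≤ b →
      M.nd (Cone.base y0 z) (g • Cone.base y0 z) ≤ N * (b * 2 ^ m) := by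
  letI := apAct (n := n) (δ := δ) (B := B) (q := q) H.inv
  letI := Cone.coneAct (R := R) (Yx_smul (n := n) (δ := δ) (B := B) (q := q) H.inv)
  intro hb
  have hN0 : 0 < N := by omega
  have h1 := Cone.base_disp (hY := Yx_smul (n := n) (δ := δ) (B := B) (q := q) H.inv)
    (isGeod_resc M.isGeod hN0) Yx_ne y0 hz hl hb hm h
  exact le_of_resc_le hN0 h1

/-- fixing an apex -/
theorem smul_apex_eq_iff (H : Up n δ B q G V M) {R : ℕ} (g : G) (C : Ap n δ B q G M) :
    letI := apAct (n := n) (δ := δ) (B := B) (q := q) H.inv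
    letI := Cone.coneAct (R := R) (Yx_smul (n := n) (δ := δ) (B := B) (q := q) H.inv)
    g • (Cone.apex C : Cone (Yx n δ B q M (G := G)) R) = Cone.apex C ↔
      g ∈ Subgroup.zpowers C.1 := by
  letI := apAct (n := n) (δ := δ) (B := B) (q := q) H.inv
  letI := Cone.coneAct (R := R) (Yx_smul (n := n) (δ := δ) (B := B) (q := q) H.inv)
  rw [← stab_eq H.inv C, MulAction.mem_stabilizer_iff]
  constructor
  · intro h
    have h1 : (Cone.apex (g • C) : Cone (Yx n δ B q M (G := G)) R) = Cone.apex C := h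
    exact Cone.apex.inj h1
  · intro h
    change (Cone.apex (g • C) : Cone (Yx n δ B q M (G := G)) R) = Cone.apex C
    rw [h]

/-- A1 -/
theorem stepA1 (H : Up n δ B q G V M) {N R T : ℕ}
    (hN : 40 * δ + 3 + B + 20000 * δ ≤ N) (hR : Cone.depth ≤ R)
    (hT : T * (q * N) ≤ n) (hTh : 2 * ((12 * Cone.dX + 11) * 2 ^ R) ≤ T)
    {b0 κ1 m0 : ℕ} (hb : b0 + κ1 ≤ R) (hm0 : N * (κ1 * 2 ^ (b0 + κ1)) ≤ m0) (hm : 1 ≤ m0) :
    letI := apAct (n := n) (δ := δ) (B := B) (q := q) H.inv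
    letI := Cone.coneAct (R := R) (Yx_smul (n := n) (δ := δ) (B := B) (q := q) H.inv)
    ∀ (z : Cone (Yx n δ B q M (G := G)) R) (g : G), z ∉ (rf H hN hR hT hTh).V →
      Cone.rho (resc M.nd N) z (g • z) ≤ b0 → Cone.rho (resc M.nd N) z (g ^ m0 • z) ≤ κ1 →
      g ^ n = 1 ∨ ∃ c ∈ (rf H hN hR hT hTh).V, g • c = c := by
  letI := apAct (n := n) (δ := δ) (B := B) (q := q) H.inv
  letI := Cone.coneAct (R := R) (Yx_smul (n := n) (δ := δ) (B := B) (q := q) H.inv)
  intro z g hzV h1 h2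
  haveI := H.ne
  have hN0 : 0 < N := by omega
  have hz : ∀ C, z ≠ Cone.apex C := fun C h => hzV ⟨C, h.symm⟩
  let y0 : Ap n δ B q G M → V := fun C => (Yx_ne C).some
  rcases Cone.local_disp (hY := Yx_smul (n := n) (δ := δ) (B := B) (q := q) H.inv)
    (isGeod_resc M.isGeod hN0) Yx_ne y0 hz h1 (by omega) with ⟨C, _, hC⟩ | ⟨hl, _⟩
  · right
    refine ⟨Cone.apex C, ⟨C, rfl⟩, ?_⟩
    change Cone.apex (g • C) = Cone.apex C
    rw [hC]
  · have h3 := base_disp' H hN y0 (g ^ m0) z hz (l := b0) (b := κ1) (m := b0 + κ1)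
      (by omega) hb (by omega) h2
    rcases H.T g with h | h
    · exact Or.inl h
    · right
      obtain ⟨C, hC⟩ := exists_apex H h hm (x := Cone.base y0 z) (by
        have := M.nd_cast (Cone.base y0 z) (g ^ m0 • Cone.base y0 z)
        omega)
      exact ⟨Cone.apex C, ⟨C, rfl⟩, (smul_apex_eq_iff H g C).2 hC⟩

/-- A2 -/
theorem stepA2 (H : Up n δ B q G V M) {N R T : ℕ}
    (hN : 40 * δ + 3 + B + 20000 * δ ≤ N) (hR : Cone.depth ≤ R)
    (hT : T * (q * N) ≤ n) (hTh : 2 * ((12 * Cone.dX + 11) * 2 ^ R) ≤ T)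
    {L B' : ℕ} (hL1 : 1 ≤ L) (hLR : L ≤ R) (hB' : L + 1 + 20 * (L * 2 ^ L) ≤ B') :
    letI := apAct (n := n) (δ := δ) (B := B) (q := q) H.inv
    letI := Cone.coneAct (R := R) (Yx_smul (n := n) (δ := δ) (B := B) (q := q) H.inv)
    ∀ (x y : Cone (Yx n δ B q M (G := G)) R) (g h : G), x ∉ (rf H hN hR hT hTh).V →
      y ∉ (rf H hN hR hT hTh).V →
      Cone.rho (resc M.nd N) x (g • x) ≤ L → Cone.rho (resc M.nd N) y (g • y) ≤ L →
      Cone.rho (resc M.nd N) x (h • x) ≤ L → Cone.rho (resc M.nd N) y (h • y) ≤ L →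
      B' < Cone.rho (resc M.nd N) x y →
      ∃ u : G, g ∈ Subgroup.zpowers u ∧ h ∈ Subgroup.zpowers u := by
  letI := apAct (n := n) (δ := δ) (B := B) (q := q) H.inv
  letI := Cone.coneAct (R := R) (Yx_smul (n := n) (δ := δ) (B := B) (q := q) H.inv)
  intro x y g h hxV hyV hgx hgy hhx hhy hxy
  haveI := H.ne
  have hN0 : 0 < N := by omega
  have hd := isGeod_resc M.isGeod hN0
  have hge := Cone.isGeod_rho (R := R) (Y := Yx n δ B q M (G := G)) hd Yx_ne
  have hx : ∀ C, x ≠ Cone.apex C := fun C h => hxV ⟨C, h.symm⟩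
  have hy : ∀ C, y ≠ Cone.apex C := fun C h => hyV ⟨C, h.symm⟩
  let y0 : Ap n δ B q G M → V := fun C => (Yx_ne C).some
  -- high level: both fix the apex
  have high : ∀ z : Cone (Yx n δ B q M (G := G)) R, L < 2 * Cone.lev z →
      Cone.rho (resc M.nd N) z (g • z) ≤ L → Cone.rho (resc M.nd N) z (h • z) ≤ L →
      ∃ u : G, g ∈ Subgroup.zpowers u ∧ h ∈ Subgroup.zpowers u := by
    intro z hz1 hz2 hz3
    obtain ⟨C, hC⟩ := Cone.exists_kC_eq_lev (u := z) (by omega)
    have hC0 : 0 < Cone.kC C z := by omega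
    have f1 : g • C = C := Cone.fix_of_lev
      (hY := Yx_smul (n := n) (δ := δ) (B := B) (q := q) H.inv) hd Yx_ne hC0
      (lt_of_le_of_lt hz2 (by omega))
    have f2 : h • C = C := Cone.fix_of_lev
      (hY := Yx_smul (n := n) (δ := δ) (B := B) (q := q) H.inv) hd Yx_ne hC0
      (lt_of_le_of_lt hz3 (by omega))
    refine ⟨C.1, ?_, ?_⟩
    · rw [← stab_eq H.inv C]; exact f1
    · rw [← stab_eq H.inv C]; exact f2
  by_cases hlx : L < 2 * Cone.lev x
  · exact high x hlx hgx hhx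
  by_cases hly : L < 2 * Cone.lev y
  · exact high y hly hgy hhy
  have b1 := base_disp' H hN y0 g x hx (l := Cone.lev x) (b := L) (m := L) le_rfl hLR
    (by omega) hgx
  have b2 := base_disp' H hN y0 g y hy (l := Cone.lev y) (b := L) (m := L) le_rfl hLR
    (by omega) hgy
  have b3 := base_disp' H hN y0 h x hx (l := Cone.lev x) (b := L) (m := L) le_rfl hLR
    (by omega) hhx
  have b4 := base_disp' H hN y0 h y hy (l := Cone.lev y) (b := L) (m := L) le_rfl hLR
    (by omega) hhy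
  -- distance of the base points
  have r1 := Cone.rho_base_le (d := resc M.nd N) y0 hx
  have r2 := Cone.rho_base_le (d := resc M.nd N) y0 hy
  have r3 := Cone.rho_pt_pt (R := R) (Y := Yx n δ B q M (G := G)) hd (Cone.base y0 x)
    (Cone.base y0 y)
  have t1 := hge.tri x (Cone.pt (Cone.base y0 x)) y
  have t2 := hge.tri (Cone.pt (Cone.base y0 x)) (Cone.pt (Cone.base y0 y)) y
  have s1 := hge.symm x (Cone.pt (Cone.base y0 x))
  have hbase : L * 2 ^ L * 20 + 1 < resc M.nd N (Cone.base y0 x) (Cone.base y0 y) := by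
    omega
  have hdist : N * (L * 2 ^ L * 20 + 1) < M.nd (Cone.base y0 x) (Cone.base y0 y) := by
    by_contra hcon
    have := resc_le (d := M.nd) hN0 (x := Cone.base y0 x) (y := Cone.base y0 y)
      (k := L * 2 ^ L * 20 + 1) (by omega)
    omega
  have hpow : 1 ≤ L * 2 ^ L := Nat.mul_pos hL1 (by positivity)
  have hNR : 1000 * δ ≤ N * (L * 2 ^ L) := by
    calc 1000 * δ ≤ N * 1 := by omega
      _ ≤ N * (L * 2 ^ L) := Nat.mul_le_mul_left _ hpow
  have c1 := M.nd_cast (Cone.base y0 x) (g • Cone.base y0 x)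
  have c2 := M.nd_cast (Cone.base y0 y) (g • Cone.base y0 y)
  have c3 := M.nd_cast (Cone.base y0 x) (h • Cone.base y0 x)
  have c4 := M.nd_cast (Cone.base y0 y) (h • Cone.base y0 y)
  have c5 := M.nd_cast (Cone.base y0 x) (Cone.base y0 y)
  have hfin : B + 20 * (N * (L * 2 ^ L)) < M.nd (Cone.base y0 x) (Cone.base y0 y) := by
    have e : N * (L * 2 ^ L * 20 + 1) = 20 * (N * (L * 2 ^ L)) + N := by ring
    omega
  generalize hK : N * (L * 2 ^ L) = K at *
  exact H.lc4 (K : ℤ) (by exact_mod_cast hNR) g h (Cone.base y0 x) (Cone.base y0 y)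
    (by omega) (by omega) (by omega) (by omega) (by omega)

/-- A4 -/
theorem stepA4 (H : Up n δ B q G V M) {N R T : ℕ}
    (hN : 40 * δ + 3 + B + 20000 * δ ≤ N) (hR : Cone.depth ≤ R)
    (hT : T * (q * N) ≤ n) (hTh : 2 * ((12 * Cone.dX + 11) * 2 ^ R) ≤ T) :
    letI := apAct (n := n) (δ := δ) (B := B) (q := q) H.inv
    letI := Cone.coneAct (R := R) (Yx_smul (n := n) (δ := δ) (B := B) (q := q) H.inv)
    ∀ c ∈ (rf H hN hR hT hTh).V, ∃ a : G, (∀ g : G, g • c = c ↔ g ∈ Subgroup.zpowers a) ∧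
      a ^ n ∈ RotFam.KA (rf H hN hR hT hTh) := by
  letI := apAct (n := n) (δ := δ) (B := B) (q := q) H.inv
  letI := Cone.coneAct (R := R) (Yx_smul (n := n) (δ := δ) (B := B) (q := q) H.inv)
  rintro _ ⟨C, rfl⟩
  refine ⟨C.1, fun g => smul_apex_eq_iff H g C, ?_⟩
  apply Subgroup.subset_closure
  exact ⟨Cone.apex C, ⟨C, rfl⟩, Subgroup.mem_zpowers _⟩

end Up

end Burn
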